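import Pool.Agent.Helper7.HL.Stmts

/-!
# Row BS4

Stability of the generating function of the column tableaux, and the full column.
-/

namespace Pool.Agent.Helper15.HL

open Finset MvPolynomial
open Pool.Agent.Helper7.HL Pool.Agent.Helper32.HG

theorem mem_tl_nil (N : ℕ) (b : List (Finset ℕ)) : b ∈ tl N [] ↔ b = [] := by
  simp [tl]

theorem mem_tl_cons (N k : ℕ) (cs : List ℕ) (b : List (Finset ℕ)) :
    b ∈ tl N (k :: cs) ↔
      ∃ (c : Finset ℕ) (b' : List (Finset ℕ)), b = c :: b' ∧ c ⊆ range N ∧ c.card = k ∧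
        b' ∈ tl N cs := by
  simp only [tl, mem_image, mem_product, mem_powersetCard, Prod.exists]
  constructor
  · rintro ⟨c, b', ⟨⟨h1, h2⟩, h3⟩, h4⟩
    exact ⟨c, b', h4.symm, h1, h2, h3⟩
  · rintro ⟨c, b', h4, h1, h2, h3⟩
    exact ⟨c, b', ⟨⟨h1, h2⟩, h3⟩, h4.symm⟩

theorem wtc_cons (c : Finset ℕ) (b : List (Finset ℕ)) (i : ℕ) :
    wtc (c :: b) i = wtc b i + if i ∈ c then 1 else 0 := by
  simp [wtc, List.countP_cons]

/-- the entries of `LL` -/
theorem LL_prop (hBW1 : ST_BW1) (N : ℕ) : ∀ (cs : List ℕ) (b : List (Finset ℕ)), Dec cs →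
    b ∈ tl N cs → ∀ d ∈ LL N b, d ⊆ range N ∧ d.card ∈ cs := by
  intro cs
  induction cs with
  | nil =>
    intro b _ hb d hd
    rw [mem_tl_nil] at hb
    subst hb
    simp [LL] at hd
  | cons k cs ih =>
    intro b hdec hb d hd
    obtain ⟨c, b', rfl, h1, h2, h3⟩ := (mem_tl_cons N k cs b).1 hb
    have hdec' := List.pairwise_cons.1 hdec
    simp only [LL, List.mem_cons, List.mem_map] at hd
    rcases hd with rfl | ⟨d', hd', rfl⟩
    · exact ⟨h1, by rw [h2]; exact List.mem_cons_self⟩
    · obtain ⟨e1, e2⟩ := ih b' hdec'.2 h3 d' hd'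
      have hle : d'.card ≤ c.card := by rw [h2]; exact hdec'.1 _ e2
      obtain ⟨-, -, a3, -, a5, -⟩ := hBW1 N c d' h1 e1 hle
      exact ⟨a5, by rw [a3]; exact List.mem_cons_of_mem _ e2⟩

/-- stability of `LL` and `DD` -/
theorem LL_stab (hBW1 : ST_BW1) (hBW5 : ST_BW5) (N : ℕ) :
    ∀ (cs : List ℕ) (b : List (Finset ℕ)), Dec cs → b ∈ tl N cs →
      LL (N + 1) b = LL N b ∧ DD (N + 1) b = DD N b := by
  intro cs
  induction cs with
  | nil =>
    intro b _ hb
    rw [mem_tl_nil] at hb
    subst hb
    simp [LL, DD]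
  | cons k cs ih =>
    intro b hdec hb
    obtain ⟨c, b', rfl, h1, h2, h3⟩ := (mem_tl_cons N k cs b).1 hb
    have hdec' := List.pairwise_cons.1 hdec
    obtain ⟨i1, i2⟩ := ih b' hdec'.2 h3
    have key : ∀ d ∈ LL N b', Um (N + 1) c d = Um N c d ∧ Hen (N + 1) c d = Hen N c d := by
      intro d hd
      obtain ⟨e1, e2⟩ := LL_prop hBW1 N cs b' hdec'.2 h3 d hd
      have hle : d.card ≤ c.card := by rw [h2]; exact hdec'.1 _ e2
      exact (hBW5 N c d h1 e1).1 hle
    constructor
    · simp only [LL, i1, List.cons.injEq, true_and]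
      apply List.map_congr_left
      intro d hd
      simp only [Rl, (key d hd).1]
    · simp only [DD, i1, i2]
      congr 2
      apply List.map_congr_left
      intro d hd
      exact (key d hd).2

theorem DD_full (hBW1 : ST_BW1) (hBW5 : ST_BW5) (N : ℕ) (cs : List ℕ) (b : List (Finset ℕ))
    (hdec : Dec cs) (hb : b ∈ tl N cs) : DD N (range N :: b) = DD N b := by
  have : ((LL N b).map (fun d => Hen N (range N) d)).sum = 0 := by
    rw [List.sum_eq_zero]
    intro x hx
    rw [List.mem_map] at hx
    obtain ⟨d, hd, rfl⟩ := hx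
    exact (hBW5 N (range N) d (subset_refl _) (LL_prop hBW1 N cs b hdec hb d hd).1).2
  simp only [DD, this, add_zero]

theorem tl_sub (N : ℕ) : ∀ cs : List ℕ, tl N cs ⊆ tl (N + 1) cs := by
  intro cs
  induction cs with
  | nil => intro b hb; rw [mem_tl_nil] at hb ⊢; exact hb
  | cons k cs ih =>
    intro b hb
    rw [mem_tl_cons] at hb ⊢
    obtain ⟨c, b', h0, h1, h2, h3⟩ := hb
    exact ⟨c, b', h0, h1.trans (range_mono (Nat.le_succ N)), h2, ih h3⟩

theorem mem_tl_of_wtc (N : ℕ) : ∀ (cs : List ℕ) (b : List (Finset ℕ)), b ∈ tl (N + 1) cs →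
    wtc b N = 0 → b ∈ tl N cs := by
  intro cs
  induction cs with
  | nil => intro b hb _; rw [mem_tl_nil] at hb ⊢; exact hb
  | cons k cs ih =>
    intro b hb h0
    rw [mem_tl_cons] at hb ⊢
    obtain ⟨c, b', rfl, h1, h2, h3⟩ := hb
    rw [wtc_cons] at h0
    have hN : N ∉ c := by
      intro hN
      rw [if_pos hN] at h0
      omega
    refine ⟨c, b', rfl, ?_, h2, ih b' h3 (by omega)⟩
    intro x hx
    have h4 := h1 hx
    rw [mem_range] at h4 ⊢
    have h5 : x ≠ N := by
      rintro rfl
      exact hN hx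
    omega

theorem wtc_zero (N : ℕ) : ∀ (cs : List ℕ) (b : List (Finset ℕ)), b ∈ tl N cs →
    wtc b N = 0 := by
  intro cs
  induction cs with
  | nil => intro b hb; rw [mem_tl_nil] at hb; subst hb; simp [wtc]
  | cons k cs ih =>
    intro b hb
    rw [mem_tl_cons] at hb
    obtain ⟨c, b', rfl, h1, h2, h3⟩ := hb
    rw [wtc_cons, ih b' h3]
    have : N ∉ c := by
      intro hN
      have := h1 hN
      rw [mem_range] at this
      omega
    simp [this]

theorem FB_coeff (N : ℕ) (cs : List ℕ) (β : Fin N → ℕ) : coeff (ex β) (FB N cs) =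
    ∑ b ∈ tl N cs, if (fun i : Fin N => wtc b i.val) = β then
      (Polynomial.X : Polynomial ℤ) ^ DD N b else 0 := by
  classical
  unfold FB
  rw [coeff_sum]
  apply sum_congr rfl
  intro b _
  rw [coeff_monomial]
  by_cases h : (fun i : Fin N => wtc b i.val) = β
  · rw [if_pos h, h, if_pos rfl]
  · rw [if_neg h, if_neg]
    intro h'
    exact h (ex_inj h')

/-- Row BS4. -/
theorem st_BS4 (hBW1 : ST_BW1) (hBW5 : ST_BW5) : ST_BS4 := by
  constructor
  · intro N cs γ hdec
    rw [FB_coeff, FB_coeff, ← sum_subset (tl_sub N cs)]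
    · apply sum_congr rfl
      intro b hb
      rw [(LL_stab hBW1 hBW5 N cs b hdec hb).2]
      have hiff : ((fun i : Fin (N + 1) => wtc b i.val) = Fin.snoc γ 0) ↔
          ((fun i : Fin N => wtc b i.val) = γ) := by
        constructor
        · intro h
          funext i
          have := congrFun h (Fin.castSucc i)
          simpa using this
        · intro h
          funext i
          refine Fin.lastCases ?_ (fun j => ?_) i
          · simp [wtc_zero N cs b hb]
          · have := congrFun h j
            simpa using this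
      by_cases h : (fun i : Fin N => wtc b i.val) = γ
      · rw [if_pos h, if_pos (hiff.2 h)]
      · rw [if_neg h, if_neg (fun h' => h (hiff.1 h'))]
    · intro b hb hnb
      rw [if_neg]
      intro h
      apply hnb
      apply mem_tl_of_wtc N cs b hb
      have := congrFun h (Fin.last N)
      simpa using this
  · intro k cs hdec
    have hdec' := List.pairwise_cons.1 hdec
    unfold FB
    have hprod : (∏ i : Fin k, (X i : MvPolynomial (Fin k) (Polynomial ℤ))) =
        monomial (ex (fun _ : Fin k => 1)) 1 := by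
      rw [monomial_eq, map_one, one_mul, Finsupp.prod_fintype]
      · apply prod_congr rfl
        intro i _
        rw [ex_apply, pow_one]
      · intro i
        rw [pow_zero]
    rw [hprod, mul_sum]
    symm
    apply sum_bij (fun b _ => range k :: b)
    · intro b hb
      rw [mem_tl_cons]
      exact ⟨range k, b, rfl, subset_refl _, card_range k, hb⟩
    · intro a _ b _ h
      exact (List.cons.injEq _ _ _ _ ▸ h : _ ∧ _).2
    · intro b hb
      rw [mem_tl_cons] at hb
      obtain ⟨c, b', rfl, h1, h2, h3⟩ := hb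
      refine ⟨b', h3, ?_⟩
      have : c = range k := eq_of_subset_of_card_le h1 (by rw [card_range, h2])
      rw [this]
    · intro b hb
      rw [monomial_mul, one_mul, DD_full hBW1 hBW5 k cs b hdec'.2 hb]
      have he : (ex (fun _ : Fin k => 1) + ex (fun i : Fin k => wtc b i.val)) =
          ex (fun i : Fin k => wtc (range k :: b) i.val) := by
        apply Finsupp.ext
        intro i
        rw [Finsupp.add_apply, ex_apply, ex_apply, ex_apply, wtc_cons,
          if_pos (mem_range.2 i.isLt), add_comm]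
      rw [he]

end Pool.Agent.Helper15.HL
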