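import Pool.Agent.Helper7.HL.Stmts

/-!
# Row UN

The three facts hold over every commutative ring: they are transported from the field
`ℚ(q)(t)` to `ℤ[q][t]` and from there to every ring.
-/

namespace Pool.Agent.Helper15.HL

open Finset MvPolynomial
open Pool.Agent.Helper7.HL Pool.Agent.Helper32.HG

/-- the homomorphism `q -> q`, `t -> t` -/
noncomputable def hqt {R : Type} [CommRing R] (q t : R) : R0 →+* R :=
  Polynomial.eval₂RingHom (Polynomial.eval₂RingHom (Int.castRingHom R) q) t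

theorem hqt_q {R : Type} [CommRing R] (q t : R) : hqt q t qz = q := by
  simp [hqt, qz]

theorem hqt_t {R : Type} [CommRing R] (q t : R) : hqt q t tz = t := by
  simp [hqt, tz]

theorem gq_F (h : GQT qF tF) : GQ qF := by
  intro m hm
  have := h m 0 (by omega)
  simpa using this

/-- Row UN. -/
theorem st_UN (hKF : ST_KF) (hMP : ST_MP) (hGEN : ST_GEN) : ST_UN := by
  obtain ⟨hinj, hq, ht, -, -, hg, -⟩ := hGEN
  obtain ⟨f1, f2, f3⟩ := hKF (RatFunc (RatFunc ℚ)) qF tF (gq_F hg)
  obtain ⟨-, m2, m3, m4, -, -⟩ := hMP R0 (RatFunc (RatFunc ℚ)) emb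
  have g1 : ∀ (k : ℕ) (cs : List ℕ), Dec (k :: cs) →
      Dl k R0 * fJ qz tz k (k :: cs) = (∏ i : Fin k, X i) * Dop qz tz tz k (fJ qz tz k cs) := by
    intro k cs h
    apply MvPolynomial.map_injective emb hinj
    rw [map_mul, map_mul, m2, m3, m4, m2, map_prod, hq, ht]
    simp only [map_X]
    exact f1 k cs h
  have g2 : ∀ (N : ℕ) (cs : List ℕ), Dec cs → 0 < N → (∀ c ∈ cs, c < N) →
      Dop qz tz 1 N (fJ qz tz N cs) = 0 := by
    intro N cs h hN hc
    apply MvPolynomial.map_injective emb hinj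
    rw [m3, m2, hq, ht, map_one, map_zero]
    exact f2 N cs h hN hc
  have g3 : ∀ (N : ℕ) (cs : List ℕ), Dec cs → ∀ γ : Fin N → ℕ,
      coeff (ex γ) (fJ qz tz N cs) ≠ 0 → ∑ i, γ i = cs.sum := by
    intro N cs h γ hγ
    apply f3 N cs h γ
    have e := m2 qz tz N cs
    rw [hq, ht] at e
    rw [← e, coeff_map]
    intro h0
    exact hγ (hinj (by rw [h0, map_zero]))
  intro R _ q t
  obtain ⟨-, n2, n3, n4, -, -⟩ := hMP R0 R (hqt q t)
  refine ⟨?_, ?_, ?_⟩
  · intro k cs h
    have e := congrArg (MvPolynomial.map (hqt q t)) (g1 k cs h)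
    rw [map_mul, map_mul, n2, n3, n4, n2, map_prod, hqt_q, hqt_t] at e
    simp only [map_X] at e
    exact e
  · intro N cs h hN hc
    have e := congrArg (MvPolynomial.map (hqt q t)) (g2 N cs h hN hc)
    rw [n3, n2, hqt_q, hqt_t, map_one, map_zero] at e
    exact e
  · intro N cs h γ hγ
    apply g3 N cs h γ
    intro h0
    apply hγ
    have e := n2 qz tz N cs
    rw [hqt_q, hqt_t] at e
    rw [← e, coeff_map, h0, map_zero]

end Pool.Agent.Helper15.HL
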